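import Pool.Agent.X39.Near.JQ

/-!
# `J (q_i)`, `D J (q_i)`, `D² J (q_i)` for pairwise multiplicatively independent polynomials `q_i = p_i (t)`, at ALL algebraic
# `t` close to any number outside a set of dimension zero

Bertrand's question: are the `3 n` numbers `J (q_i)`, `D J (q_i)`, `D² J (q_i)` algebraically independent, for `q_1, …, q_n`
algebraic in the punctured unit disc, pairwise multiplicatively independent? We prove, outside ONE set `E` of complex
numbers of Hausdorff dimension `0` (for all `n`, all polynomials, number fields, degrees and scales): for every `x` and all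
polynomials `p_1, …, p_n` with algebraic coefficients, pairwise multiplicatively independent (modulo constants), with
`0 < |p_i (x)| < 1`, the `3 n` numbers for `q_i = p_i (t)`, for ALL algebraic `t` in a number field close to `x`, satisfy no
relation of bounded degree with coefficients of polynomial size, even approximately; here the coefficients may be
polynomials in arbitrary constants `ξ_1, …, ξ_g` fixed in advance (for instance `π`). In particular nonzero integral
polynomials of degree at most `d` and of height at most `T ^ A` have values of absolute value greater than `T ^ (-B)` at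
these numbers.

Proof. (1) The functions `J (p_1 (t))`, `J (p_2 (t))` are algebraically independent (`Pool.Agent.X39.Near.Sch`): otherwise
the Schwarzian equation of `j` and the independence of `t`, `j (τ_1)`, `j' (τ_1)` over the constants give `{τ_1, t} = {τ_2, t}`
for `τ_i = log p_i (t) / 2 π i`, so that `τ_1` and `τ_2` are related by a matrix with constant entries, which contradicts
the algebraic independence of `t`, `log p_1 (t)`, `log p_2 (t)`. (2) So the theorem on period matrices (`Y776.AxJ`) gives the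
algebraic independence of the `3 n` functions, over `ℂ(t)`. (3) The levels of the library give, on compact sets, at most
`C T ^ ε` exceptional points of height `T`, for every `ε > 0`, and so a limsup set of dimension `0`
(`Pool.Agent.X39.Near`); all polynomials are treated at the same time.
-/

set_option autoImplicit false

open NumberField

namespace Pool.Agent.Results.MP_151840_nt.ApproximationsOfAllNumbers

open Pool.Agent.X39.Near (Size Dep Br BrD)

/-- the normalised Eisenstein series of weight `4` as a function of the nome -/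
noncomputable def E4 (q : ℂ) : ℂ :=
  1 + 240 * ∑' m : ℕ, ((ArithmeticFunction.sigma 3 (m + 1) : ℕ) : ℂ) * q ^ (m + 1)

/-- the normalised Eisenstein series of weight `6` as a function of the nome -/
noncomputable def E6 (q : ℂ) : ℂ :=
  1 - 504 * ∑' m : ℕ, ((ArithmeticFunction.sigma 5 (m + 1) : ℕ) : ℂ) * q ^ (m + 1)

/-- the function `J (q) = q⁻¹ + 744 + 196884 q + ⋯` on the punctured unit disc -/
noncomputable def J (q : ℂ) : ℂ := 1728 * E4 q ^ 3 / (E4 q ^ 3 - E6 q ^ 2)

/-- the `3 n` numbers `J (q_i)`, `D J (q_i)`, `D² J (q_i)`, where `D = q d/dq` -/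
noncomputable def value {n : ℕ} (q : Fin n → ℂ) (k : Fin n × Fin 3) : ℂ :=
  ![J (q k.1), q k.1 * deriv J (q k.1), q k.1 * deriv (fun u => u * deriv J u) (q k.1)] k.2

/-- The polynomials are not constant, and pairwise multiplicatively independent modulo constants. -/
structure Independent {n : ℕ} (p : Fin n → Polynomial ℂ) : Prop where
  nonconstant : ∀ i, (p i).natDegree ≠ 0
  pairs : ∀ i k, i ≠ k → ∀ (a b a' b' : ℕ) (c : ℂ),
    p i ^ a * p k ^ b = Polynomial.C c * (p i ^ a' * p k ^ b') → a = a' ∧ b = b'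

/-- The polynomials have algebraic coefficients. -/
def AlgebraicCoefficients {n : ℕ} (p : Fin n → Polynomial ℂ) : Prop := ∀ k i, IsAlgebraic ℚ ((p k).coeff i)

/-- There is no relation between the numbers `v`: (1) in the sense of `Dep`, (2) for integral polynomials. -/
def NoRelation {K : Type} {g : ℕ} (v : K → ℂ) (ξ : Fin g → ℂ) (F : Type) [Field F] [NumberField F] (ι : F →+* ℂ)
    (d A : ℕ) (B T : ℝ) : Prop :=
  ¬ Dep v ξ F ι d A B T ∧
  ∀ P : MvPolynomial K ℤ, P ≠ 0 → (∀ j, P.degreeOf j ≤ d) →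
    (∀ e, |((P.coeff e : ℤ) : ℝ)| ≤ T ^ A) → T ^ (-B) < ‖MvPolynomial.aeval v P‖

theorem indC_of {s : ℕ} {U : Set ℂ} {l : Fin s → ℂ → ℂ} (h : ∀ P : MvPolynomial (Option (Fin s)) ℂ,
    (∀ t ∈ U, MvPolynomial.eval (fun o => o.elim t fun y => l y t) P = 0) → P = 0) : Pool.Agent.Y776.Fam.IndC U l := by
  classical
  intro m c hm
  have h1 := h (∑ k, MvPolynomial.C (m k : ℂ) * MvPolynomial.X (some k) - MvPolynomial.C c) (by
    intro t ht
    simp [hm t ht])
  funext k
  have e1 := congrArg (MvPolynomial.eval (fun o : Option (Fin s) => o.elim 0 (fun j => if j = k then 1 else 0))) h1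
  have e2 := congrArg (MvPolynomial.eval (fun _ : Option (Fin s) => (0 : ℂ))) h1
  simp at e1 e2
  rw [e2, sub_zero] at e1
  exact_mod_cast e1

/-- the domain -/
def dom {n : ℕ} (p : Fin n → Polynomial ℂ) : Set ℂ := {z | ∀ i, (p i).eval z ≠ 0 ∧ ‖(p i).eval z‖ < 1}

theorem dom_open {n : ℕ} (p : Fin n → Polynomial ℂ) : IsOpen (dom p) := by
  have h1 : dom p = ⋂ k, ((fun z => (p k).eval z) ⁻¹' {0}ᶜ ∩ (fun z => ‖(p k).eval z‖) ⁻¹' Set.Iio 1) := by
    ext z
    simp [dom]
  rw [h1]
  exact isOpen_iInter_of_finite fun k => (isOpen_compl_singleton.preimage (p k).continuous).inter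
    (isOpen_Iio.preimage (p k).continuous.norm)

theorem exists_branch {z : ℂ} (hz : z ≠ 0) : ∃ k : ℤ, z ∈ BrD k := by
  by_cases h : z ∈ Complex.slitPlane
  · exact ⟨0, by simpa [BrD] using h⟩
  · refine ⟨1, ?_⟩
    show (-1 : ℂ) ^ (1 : ℤ) * z ∈ Complex.slitPlane
    rw [zpow_one, neg_one_mul, Complex.mem_slitPlane_iff]
    rw [Complex.mem_slitPlane_iff] at h
    push Not at h
    left
    rw [Complex.neg_re]
    rcases lt_or_eq_of_le h.1 with h1 | h1
    · linarith
    · exact absurd (Complex.ext h1 h.2) hz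

theorem many {n : ℕ} {p : Fin n → Polynomial ℂ} (hp : Independent p) {b : Fin n → ℤ} {r : ℝ} {t₀ : ℂ} (hr : 0 < r)
    (hb : ∀ z ∈ Metric.ball t₀ r, ∀ i, (p i).eval z ∈ BrD (b i)) (hd : Metric.ball t₀ r ⊆ dom p) :
    Pool.Agent.X39.Near.JQ.Many (Metric.ball t₀ r)
      (fun i z => Br (b i) ((p i).eval z) / (2 * (Real.pi : ℂ) * Complex.I)) p := by
  have hpi := Complex.two_pi_I_ne_zero
  have han : ∀ i, AnalyticOnNhd ℂ (fun z => Br (b i) ((p i).eval z)) (Metric.ball t₀ r) := fun i z hz =>
    AnalyticAt.fun_comp (g := Br (b i)) (f := fun z => (p i).eval z) (Pool.Agent.X39.Near.Br_an (hb z hz i))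
      ((p i).differentiable.analyticAt z)
  have hexp : ∀ i, ∀ z ∈ Metric.ball t₀ r, Complex.exp (2 * (Real.pi : ℂ) * Complex.I *
      (Br (b i) ((p i).eval z) / (2 * (Real.pi : ℂ) * Complex.I))) = (p i).eval z := by
    intro i z hz
    rw [mul_div_cancel₀ _ hpi, Pool.Agent.X39.Near.exp_Br (hb z hz i)]
  refine
    { op := Metric.isOpen_ball
      conn := (convex_ball _ _).isPreconnected
      ne := Metric.nonempty_ball.2 hr
      an := fun i z hz => (han i z hz).div analyticAt_const hpi
      im := fun i z hz => ?_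
      nc := fun i c => ?_
      pair := fun i k hik => ?_
      exp := hexp }
  · have h1 : ‖(p i).eval z‖ < 1 := (hd hz i).2
    rw [← Pool.Agent.X39.Near.exp_Br (hb z hz i), Complex.norm_exp, Real.exp_lt_one_iff] at h1
    have h2 : Br (b i) ((p i).eval z) / (2 * (Real.pi : ℂ) * Complex.I) =
        -(Complex.I * Br (b i) ((p i).eval z)) / ((2 * Real.pi : ℝ) : ℂ) := by
      push_cast
      have := Complex.I_ne_zero
      have hp' : (Real.pi : ℂ) ≠ 0 := by exact_mod_cast Real.pi_ne_zero
      field_simp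
      rw [Complex.I_sq]
      ring
    rw [h2, Complex.div_ofReal_im]
    have h3 : (-(Complex.I * Br (b i) ((p i).eval z))).im = -(Br (b i) ((p i).eval z)).re := by
      simp
    rw [h3]
    exact div_pos (by linarith) (by positivity)
  · by_contra hcon
    push Not at hcon
    have h1 : ∀ z ∈ Metric.ball t₀ r, (p i - Polynomial.C (Complex.exp (2 * (Real.pi : ℂ) * Complex.I * c))).eval z = 0 := by
      intro z hz
      rw [Polynomial.eval_sub, Polynomial.eval_C, ← hexp i z hz, hcon z hz, sub_self]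
    have h2 : p i - Polynomial.C (Complex.exp (2 * (Real.pi : ℂ) * Complex.I * c)) = 0 := by
      refine Polynomial.eq_zero_of_infinite_isRoot _ (Set.Infinite.mono h1 ?_)
      exact (infinite_of_mem_nhds t₀ (Metric.ball_mem_nhds t₀ hr))
    apply hp.nonconstant i
    rw [sub_eq_zero.1 h2, Polynomial.natDegree_C]
  · have h0 : ∀ j, p j ≠ 0 := fun j h => hp.nonconstant j (by rw [h, Polynomial.natDegree_zero])
    have h1 : Pool.Agent.X255.RH.Indep (Metric.ball t₀ r) (Pool.Agent.X39.Near.Sch.ww (fun m : Fin 2 => fun z =>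
        Br (b (![i, k] m)) ((p (![i, k] m)).eval z) / (2 * (Real.pi : ℂ) * Complex.I))) := by
      refine Pool.Agent.X255.RH.logR_indep (convex_ball _ _).isPreconnected Metric.isOpen_ball
        (Metric.nonempty_ball.2 hr) (fun m => p (![i, k] m)) (fun _ => 1) (fun m => h0 _) (fun _ => one_ne_zero)
        (fun m n c h => ?_) _ (fun m z hz => analyticAt_const.mul ((han _ z hz).div analyticAt_const hpi)) fun m z hz => ?_
      · have h2 := hp.pairs i k hik (m 0) (m 1) (n 0) (n 1) c (by simpa [Fin.prod_univ_two] using h)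
        funext a
        fin_cases a
        · exact h2.1
        · exact h2.2
      · rw [Polynomial.eval_one, mul_one]
        exact hexp _ z hz
    exact indC_of (Pool.Agent.X39.Near.aindep_of_indep h1)

theorem local_ind {n : ℕ} {p : Fin n → Polynomial ℂ} (hp : Independent p) {t₀ : ℂ} (ht : t₀ ∈ dom p) :
    ∃ r : ℝ, 0 < r ∧ ∃ b : Fin n → ℤ, Pool.Agent.X39.Near.JQ.Many (Metric.ball t₀ r)
      (fun i z => Br (b i) ((p i).eval z) / (2 * (Real.pi : ℂ) * Complex.I)) p := by
  choose b hb using fun i => exists_branch (ht i).1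
  have ho : IsOpen (dom p ∩ ⋂ i, (fun z => (p i).eval z) ⁻¹' BrD (b i)) := (dom_open p).inter
    (isOpen_iInter_of_finite fun i => (Pool.Agent.X39.Near.BrD_open _).preimage (p i).continuous)
  obtain ⟨r, hr, hball⟩ := Metric.isOpen_iff.1 ho t₀ ⟨ht, Set.mem_iInter.2 hb⟩
  exact ⟨r, hr, b, many hp hr (fun z hz i => Set.mem_iInter.1 (hball hz).2 i) (fun z hz => (hball hz).1)⟩

/-- the index set -/
def Ix : Type := Σ n : ℕ, {p : Fin n → Polynomial ℂ // AlgebraicCoefficients p}

instance : Countable Ix := by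
  have h1 : Countable {z : ℂ // IsAlgebraic ℚ z} := (Algebraic.countable ℚ ℂ).to_subtype
  have h2 : ∀ s : ℕ, Countable {p : Fin s → Polynomial ℂ // AlgebraicCoefficients p} := by
    intro s
    have h3 : Function.Injective (fun p : {p : Fin s → Polynomial ℂ // AlgebraicCoefficients p} =>
        (fun k => (⟨(p.1 k).natDegree, fun i => ⟨(p.1 k).coeff i, p.2 k i⟩⟩ :
          Σ n : ℕ, Fin (n + 1) → {z : ℂ // IsAlgebraic ℚ z}))) := by
      intro p q h
      apply Subtype.ext
      funext k
      have h4 := congrFun h k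
      have h5 : (p.1 k).natDegree = (q.1 k).natDegree := congrArg Sigma.fst h4
      have h6 : ∀ x y : (Σ n : ℕ, Fin (n + 1) → {z : ℂ // IsAlgebraic ℚ z}), x = y →
          ∀ i : ℕ, (if hi : i < x.1 + 1 then ((x.2 ⟨i, hi⟩ : {z : ℂ // IsAlgebraic ℚ z}) : ℂ) else 0) =
            (if hi : i < y.1 + 1 then ((y.2 ⟨i, hi⟩ : {z : ℂ // IsAlgebraic ℚ z}) : ℂ) else 0) := by
        rintro x y rfl i
        rfl
      refine Polynomial.ext fun i => ?_
      have h7 := h6 _ _ h4 i
      by_cases hi : i < (p.1 k).natDegree + 1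
      · simp only [hi, h5 ▸ hi, dif_pos] at h7
        exact h7
      · rw [Polynomial.coeff_eq_zero_of_natDegree_lt (by omega), Polynomial.coeff_eq_zero_of_natDegree_lt (by omega)]
    exact h3.countable
  unfold Ix
  infer_instance

/-- **Theorem.** Let `ξ_1, …, ξ_g` be complex numbers. There is a set `E` of complex numbers of Hausdorff dimension `0` such
that for all `x` outside `E`, all `n ≥ 1`, all polynomials `p_1, …, p_n` with algebraic coefficients, not constant and
pairwise multiplicatively independent modulo constants, with `0 < |p_i (x)| < 1`, all number fields `F` with an embedding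
`ι` in `ℂ`, all `d`, `A` and `ω > 0` there are `B`, `T₁` such that for all `T ≥ T₁` and all `t ∈ F`, quotients of integers
with conjugates at most `T`, with `|ι t - x| ≤ T ^ (-ω)`, there is no relation between the `3 n` numbers `J (q_i)`,
`D J (q_i)`, `D² J (q_i)`, where `q_i = p_i (ι t)`. -/
theorem result {g : ℕ} (ξ : Fin g → ℂ) :
    ∃ E : Set ℂ, dimH E = 0 ∧ ∀ x : ℂ, x ∉ E → ∀ (n : ℕ), 0 < n → ∀ p : Fin n → Polynomial ℂ, AlgebraicCoefficients p →
      Independent p → (∀ i, (p i).eval x ≠ 0 ∧ ‖(p i).eval x‖ < 1) →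
      ∀ (F : Type) [Field F] [NumberField F] (ι : F →+* ℂ) (d A : ℕ) (ω : ℝ), 0 < ω → ∃ B T₁ : ℝ, ∀ T : ℝ, T₁ ≤ T →
        ∀ t : F, Size F T t → ‖ι t - x‖ ≤ T ^ (-ω) →
          NoRelation (value fun i => (p i).eval (ι t)) ξ F ι d A B T := by
  classical
  have H : ∀ i : Ix, ∃ E : Set ℂ, dimH E = 0 ∧ (0 < i.1 → Independent i.2.1 → ∀ x ∈ dom i.2.1, x ∉ E →
      ∀ (F : Type) [Field F] [NumberField F] (ι : F →+* ℂ) (d A : ℕ) (ω : ℝ), 0 < ω → ∃ B T₁ : ℝ, ∀ T : ℝ, T₁ ≤ T →
        ∀ t : F, Size F T t → ‖ι t - x‖ ≤ T ^ (-ω) →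
          ¬ Dep (value fun k => (i.2.1 k).eval (ι t)) ξ F ι d A B T) := by
    intro i
    by_cases hi : 0 < i.1 ∧ Independent i.2.1
    · have hl := fun t₀ ht => local_ind hi.2 (t₀ := t₀) ht
      obtain ⟨E, h1, h2, -⟩ := Pool.Agent.X39.Near.near_dep (dom i.2.1) (dom_open _)
        (fun (k : Fin i.1 × Fin 3) z => Pool.Agent.X39.Near.JQ.three ((i.2.1 k.1).eval z) k.2)
        (fun k z hz => by
          obtain ⟨r, hr, b, hm⟩ := hl z hz
          exact Pool.Agent.X39.Near.JQ.three_an hm k.1 k.2 z (Metric.mem_ball_self hr))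
        (fun z hz => by
          obtain ⟨r, hr, b, hm⟩ := hl z hz
          exact hm.loc hi.1 z (Metric.mem_ball_self hr)) ξ
      exact ⟨E, h1, fun _ _ => h2⟩
    · exact ⟨∅, dimH_empty, fun h h' => absurd ⟨h, h'⟩ hi⟩
  choose E hE0 hE using H
  refine ⟨⋃ i, E i, by rw [dimH_iUnion]; simp [hE0], fun x hx n hn p hpa hp hpx F _ _ ι d A ω hω => ?_⟩
  obtain ⟨B, T₁, h2⟩ := hE ⟨n, ⟨p, hpa⟩⟩ hn hp x hpx (fun h => hx (Set.mem_iUnion.2 ⟨_, h⟩)) F ι d A ω hω
  refine ⟨B, max T₁ 1, fun T hT t ht htx => ?_⟩
  have h4 : ¬ Dep (value fun i => (p i).eval (ι t)) ξ F ι d A B T := h2 T ((le_max_left _ _).trans hT) t ht htx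
  have hT0 : 0 < T := lt_of_lt_of_le one_pos ((le_max_right _ _).trans hT)
  exact ⟨h4, fun P hP hPd hPA => Pool.Agent.X39.Near.int_of_not_dep h4 hT0 P hP hPd fun e => by
      exact_mod_cast hPA e⟩

end Pool.Agent.Results.MP_151840_nt.ApproximationsOfAllNumbers
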